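import Mathlib
import Pool.Agent.H710R2.DP.Defs
import Pool.Agent.H710R2.DP.Defs2
import Pool.Agent.H710R2.DP.Tasks

/-!
Assembly: after an inner perturbation a derivation vanishes on the centre.
-/

open scoped ComplexOrder InnerProductSpace ComplexConjugate
open Finset

noncomputable section

namespace H710R2.DP

open H759R2.Kad

theorem dp_zero (h1 : Z_span) (h2 : Z_fin) (h3 : Z_ulim) : Z_zero := by
  intro H _ _ _ M E d hd hE
  classical
  let U : Ultrafilter (Finset {p : H →L[ℂ] H // IsCP M p}) := Ultrafilter.of Filter.atTop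
  have hU : (U : Filter (Finset {p : H →L[ℂ] H // IsCP M p})) ≤ Filter.atTop :=
    Ultrafilter.of_le _
  have key : ∀ F : Finset {p : H →L[ℂ] H // IsCP M p}, ∃ T : H →L[ℂ] H, ‖T‖ ≤ d ∧
      ∀ x : M.toStarSubalgebra, (x : H →L[ℂ] H) ∈ F.image Subtype.val →
        E x = T * (x : H →L[ℂ] H) - (x : H →L[ℂ] H) * T := fun F =>
    h2 H M E d hd hE (F.image Subtype.val) (by
      intro p hp
      obtain ⟨q, hq, rfl⟩ := Finset.mem_image.1 hp
      exact q.2)
  choose T hT hTE using key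
  obtain ⟨S, hS, hlim⟩ := h3 H _ U T d hT
  refine ⟨S, hS, ?_⟩
  have hproj : ∀ x : M.toStarSubalgebra, IsCP M (x : H →L[ℂ] H) →
      E x = S * (x : H →L[ℂ] H) - (x : H →L[ℂ] H) * S := by
    intro x hx
    ext ξ
    refine ext_inner_left ℂ fun η => ?_
    have hev : ∀ᶠ F in (U : Filter (Finset {p : H →L[ℂ] H // IsCP M p})),
        E x = T F * (x : H →L[ℂ] H) - (x : H →L[ℂ] H) * T F := by
      have h := Filter.eventually_ge_atTop
        ({⟨(x : H →L[ℂ] H), hx⟩} : Finset {p : H →L[ℂ] H // IsCP M p})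
      filter_upwards [hU h] with F hF
      refine hTE F x ?_
      refine Finset.mem_image.2 ⟨⟨(x : H →L[ℂ] H), hx⟩, ?_, rfl⟩
      exact hF (Finset.mem_singleton_self _)
    have hstar : ∀ (A B : H →L[ℂ] H) (ξ η : H), ⟪η, (A * B) ξ⟫_ℂ = ⟪star A η, B ξ⟫_ℂ := by
      intro A B ξ η
      rw [ContinuousLinearMap.star_eq_adjoint, ContinuousLinearMap.adjoint_inner_left]
      rfl
    have l1 : Filter.Tendsto (fun F => ⟪η, T F ((x : H →L[ℂ] H) ξ)⟫_ℂ -
        ⟪star (x : H →L[ℂ] H) η, T F ξ⟫_ℂ) U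
        (nhds (⟪η, S ((x : H →L[ℂ] H) ξ)⟫_ℂ - ⟪star (x : H →L[ℂ] H) η, S ξ⟫_ℂ)) :=
      (hlim _ _).sub (hlim _ _)
    have l2 : Filter.Tendsto (fun _ : Finset {p : H →L[ℂ] H // IsCP M p} => ⟪η, (E x) ξ⟫_ℂ) U
        (nhds (⟪η, S ((x : H →L[ℂ] H) ξ)⟫_ℂ - ⟪star (x : H →L[ℂ] H) η, S ξ⟫_ℂ)) := by
      refine l1.congr' ?_
      filter_upwards [hev] with F hF
      rw [hF, ContinuousLinearMap.sub_apply, inner_sub_right, hstar (x : H →L[ℂ] H) (T F) ξ η]
      rfl
    have l3 := tendsto_nhds_unique (tendsto_const_nhds) l2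
    rw [l3, ContinuousLinearMap.sub_apply, inner_sub_right, hstar (x : H →L[ℂ] H) S ξ η]
    rfl
  intro x hx
  have hlin : ∀ (n : ℕ) (c : Fin n → ℂ) (p : Fin n → M.toStarSubalgebra),
      (∀ k, IsCP M (p k : H →L[ℂ] H)) →
      E (∑ k, c k • p k) = S * ((∑ k, c k • p k : M.toStarSubalgebra) : H →L[ℂ] H) -
        ((∑ k, c k • p k : M.toStarSubalgebra) : H →L[ℂ] H) * S := by
    intro n c p hp
    have hcoe : ((∑ k, c k • p k : M.toStarSubalgebra) : H →L[ℂ] H) =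
        ∑ k, c k • (p k : H →L[ℂ] H) := by
      push_cast
      rfl
    rw [hcoe, map_sum, Finset.mul_sum, Finset.sum_mul, ← Finset.sum_sub_distrib]
    refine Finset.sum_congr rfl fun k _ => ?_
    rw [map_smul, hproj (p k) (hp k), mul_smul_comm, smul_mul_assoc, smul_sub]
  have main : ∀ ε : ℝ, 0 < ε →
      ‖E x - (S * (x : H →L[ℂ] H) - (x : H →L[ℂ] H) * S)‖ ≤ 3 * d * ε := by
    intro ε hε
    obtain ⟨n, c, p, hp, hn⟩ := h1 H M (x : H →L[ℂ] H) hx ε hε
    let q : Fin n → M.toStarSubalgebra := fun k => ⟨p k, (hp k).2.1⟩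
    let y : M.toStarSubalgebra := ∑ k, c k • q k
    have hy : (y : H →L[ℂ] H) = ∑ k, c k • p k := by
      have : (y : H →L[ℂ] H) = ∑ k, c k • (q k : H →L[ℂ] H) := by
        simp only [y]
        push_cast
        rfl
      rw [this]
    have hEy : E y = S * (y : H →L[ℂ] H) - (y : H →L[ℂ] H) * S := hlin n c q (fun k => hp k)
    have hxy : ‖(x : H →L[ℂ] H) - (y : H →L[ℂ] H)‖ ≤ ε := by rw [hy]; exact hn
    have hdec : E x - (S * (x : H →L[ℂ] H) - (x : H →L[ℂ] H) * S) =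
        E (x - y) - (S * ((x : H →L[ℂ] H) - (y : H →L[ℂ] H)) -
          ((x : H →L[ℂ] H) - (y : H →L[ℂ] H)) * S) := by
      rw [map_sub, hEy, mul_sub, sub_mul]
      abel
    rw [hdec]
    have b1 : ‖E (x - y)‖ ≤ d * ε := by
      refine (hE.bound (x - y)).trans (mul_le_mul_of_nonneg_left ?_ hd)
      exact hxy
    have b2 : ‖S * ((x : H →L[ℂ] H) - (y : H →L[ℂ] H))‖ ≤ d * ε :=
      (norm_mul_le _ _).trans (mul_le_mul hS hxy (norm_nonneg _) hd)
    have b3 : ‖((x : H →L[ℂ] H) - (y : H →L[ℂ] H)) * S‖ ≤ d * ε := by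
      refine (norm_mul_le _ _).trans ?_
      rw [mul_comm]
      exact mul_le_mul hS hxy (norm_nonneg _) hd
    calc _ ≤ ‖E (x - y)‖ + (‖S * ((x : H →L[ℂ] H) - (y : H →L[ℂ] H))‖ +
          ‖((x : H →L[ℂ] H) - (y : H →L[ℂ] H)) * S‖) :=
          (norm_sub_le _ _).trans (add_le_add le_rfl (norm_sub_le _ _))
      _ ≤ 3 * d * ε := by linarith
  have hz : ‖E x - (S * (x : H →L[ℂ] H) - (x : H →L[ℂ] H) * S)‖ ≤ 0 := by
    refine le_of_forall_pos_le_add fun ε hε => ?_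
    have h3d : 0 < 3 * d + 1 := by positivity
    refine (main (ε / (3 * d + 1)) (by positivity)).trans ?_
    rw [zero_add]
    have : 3 * d * (ε / (3 * d + 1)) = ε * (3 * d / (3 * d + 1)) := by ring
    rw [this]
    have h1' : 3 * d / (3 * d + 1) ≤ 1 := by
      rw [div_le_one h3d]; linarith
    nlinarith
  have := norm_le_zero_iff.1 hz
  exact sub_eq_zero.1 this

end H710R2.DP
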